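import Pool.Agent.Run7.h860.Hd.Stm

/-!
# Piece GP (general position) of the project of helper860 on MP_6f1c57_nt

`t_GP : S_WR → S_GP`.
-/

set_option autoImplicit false

open Polynomial Finset
open Pool.Agent.Run7.h860.Hd

namespace Pool.Agent.Run7.h617.Hd

theorem hasse_map {R S : Type*} [CommRing R] [CommRing S] (f : R →+* S) (j : ℕ) (p : R[X]) :
    hasseDeriv j (p.map f) = (hasseDeriv j p).map f := by
  ext n
  simp [hasseDeriv_coeff]

theorem aeval_hasse_map {R S Ω : Type*} [CommRing R] [CommRing S] [CommRing Ω] [Algebra R Ω]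
    [Algebra S Ω] (f : R →+* S) (hf : ∀ r, algebraMap S Ω (f r) = algebraMap R Ω r) (j : ℕ)
    (p : R[X]) (b : Ω) :
    aeval b (hasseDeriv j (p.map f)) = aeval b (hasseDeriv j p) := by
  rw [hasse_map, aeval_def, aeval_def, eval₂_map]
  congr 1
  ext r
  exact hf r

/-- one step: the Taylor coefficients of index `< m` at one point are eliminated. -/
theorem step {K L Ω : Type} [Field K] [Field L] [Field Ω] [Algebra K Ω] [Algebra L Ω]
    (f : K →+* L) (hf : ∀ r, algebraMap L Ω (f r) = algebraMap K Ω r) (d m t : ℕ)
    (e : Fin (m + t) → K[X]) (hd : ∀ i, (e i).natDegree ≤ d) (a' : L)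
    (hM : (Matrix.of fun (l i : Fin (m + t)) =>
      aeval (algebraMap L Ω a') (hasseDeriv (l : ℕ) (e i))).det ≠ 0) :
    ∃ e' : Fin t → L[X], LinearIndependent L e' ∧ (∀ i, (e' i).natDegree ≤ d) ∧
      ∀ y : Fin (m + t) → Ω,
        (∀ j < m, ∑ i, y i * aeval (algebraMap L Ω a') (hasseDeriv j (e i)) = 0) →
        ∃ w : Fin t → Ω, (w = 0 → y = 0) ∧
          ∀ (b : Ω) (j : ℕ), ∑ s, w s * aeval b (hasseDeriv j (e' s)) =
            ∑ i, y i * aeval b (hasseDeriv j (e i)) := by
  classical
  set M' : Matrix (Fin (m + t)) (Fin (m + t)) L :=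
    Matrix.of fun l i => (hasseDeriv (l : ℕ) ((e i).map f)).eval a' with hM'
  set M : Matrix (Fin (m + t)) (Fin (m + t)) Ω := Matrix.of fun (l i : Fin (m + t)) =>
      aeval (algebraMap L Ω a') (hasseDeriv (l : ℕ) (e i)) with hMdef
  have hmap : (algebraMap L Ω).mapMatrix M' = M := by
    ext l i
    simp only [RingHom.mapMatrix_apply, Matrix.map_apply, hM', hMdef, Matrix.of_apply]
    rw [← aeval_hasse_map f hf, aeval_algebraMap_apply, coe_aeval_eq_eval]
  have hdet' : M'.det ≠ 0 := by
    intro h0
    apply hM
    rw [← hmap, ← RingHom.map_det, h0, map_zero]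
  set N' := M'⁻¹ with hN'
  have hMN' : M' * N' = 1 := Matrix.mul_nonsing_inv _ (isUnit_iff_ne_zero.mpr hdet')
  have hNM' : N' * M' = 1 := Matrix.nonsing_inv_mul _ (isUnit_iff_ne_zero.mpr hdet')
  let e' : Fin t → L[X] := fun s => ∑ i, (N' i (Fin.natAdd m s)) • (e i).map f
  refine ⟨e', ?_, ?_, ?_⟩
  · rw [Fintype.linearIndependent_iff]
    intro c hc s
    have h2 : ∀ s', (hasseDeriv ((Fin.natAdd m s : Fin (m + t)) : ℕ) (e' s')).eval a' =
        (M' * N') (Fin.natAdd m s) (Fin.natAdd m s') := by
      intro s'
      simp only [e', Matrix.mul_apply, map_sum, eval_finsetSum, map_smul, eval_smul, smul_eq_mul]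
      apply Finset.sum_congr rfl
      intro i _
      rw [mul_comm]
      rfl
    have h1 : (hasseDeriv ((Fin.natAdd m s : Fin (m + t)) : ℕ) (∑ s', c s' • e' s')).eval a' = 0 := by
      rw [hc]; simp
    simp only [map_sum, eval_finsetSum, map_smul, eval_smul, smul_eq_mul, h2, hMN'] at h1
    rw [Finset.sum_eq_single s] at h1
    · simpa using h1
    · intro s' _ hne
      rw [Matrix.one_apply_ne, mul_zero]
      intro h
      apply hne
      exact (Fin.natAdd_injective t m h).symm
    · intro h
      exact absurd (Finset.mem_univ _) h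
  · intro s
    apply natDegree_sum_le_of_forall_le
    intro i _
    refine (natDegree_smul_le _ _).trans ?_
    exact (natDegree_map_le).trans (hd i)
  · intro y hy
    refine ⟨fun s => (M.mulVec y) (Fin.natAdd m s), ?_, ?_⟩
    · intro hw
      apply Matrix.eq_zero_of_mulVec_eq_zero hM
      funext l
      refine Fin.addCases (fun l => ?_) (fun s => ?_) l
      · have := hy l l.2
        rw [Matrix.mulVec, dotProduct]
        simp only [hMdef, Matrix.of_apply, Fin.val_castAdd, Pi.zero_apply]
        rw [← this]
        exact Finset.sum_congr rfl fun i _ => mul_comm _ _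
      · exact congrFun hw s
    · intro b j
      have hz : ∀ l : Fin m, (M.mulVec y) (Fin.castAdd t l) = 0 := by
        intro l
        have := hy l l.2
        rw [Matrix.mulVec, dotProduct]
        simp only [hMdef, Matrix.of_apply, Fin.val_castAdd]
        rw [← this]
        exact Finset.sum_congr rfl fun i _ => mul_comm _ _
      have hA : ∀ s, aeval b (hasseDeriv j (e' s)) =
          ∑ i, algebraMap L Ω (N' i (Fin.natAdd m s)) * aeval b (hasseDeriv j (e i)) := by
        intro s
        simp only [e', map_sum, map_smul]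
        apply Finset.sum_congr rfl
        intro i _
        rw [aeval_hasse_map f hf, Algebra.smul_def]
      set N : Matrix (Fin (m + t)) (Fin (m + t)) Ω := (algebraMap L Ω).mapMatrix N' with hN
      have hNM : N * M = 1 := by
        rw [hN, ← hmap, ← map_mul, hNM', map_one]
      have hy2 : ∀ i, ∑ s : Fin t, N i (Fin.natAdd m s) * (M.mulVec y) (Fin.natAdd m s) = y i := by
        intro i
        have h1 : N.mulVec (M.mulVec y) = y := by
          rw [Matrix.mulVec_mulVec, hNM, Matrix.one_mulVec]
        have h2 := congrFun h1 i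
        rw [Matrix.mulVec, dotProduct, Fin.sum_univ_add] at h2
        simp only [hz, mul_zero, Finset.sum_const_zero, zero_add] at h2
        exact h2
      calc ∑ s, (M.mulVec y) (Fin.natAdd m s) * aeval b (hasseDeriv j (e' s))
          = ∑ s, ∑ i, (N i (Fin.natAdd m s) * (M.mulVec y) (Fin.natAdd m s)) *
              aeval b (hasseDeriv j (e i)) := by
            apply Finset.sum_congr rfl
            intro s _
            rw [hA, Finset.mul_sum]
            apply Finset.sum_congr rfl
            intro i _
            have : N i (Fin.natAdd m s) = algebraMap L Ω (N' i (Fin.natAdd m s)) := rfl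
            rw [this]
            ring
        _ = ∑ i, y i * aeval b (hasseDeriv j (e i)) := by
            rw [Finset.sum_comm]
            apply Finset.sum_congr rfl
            intro i _
            rw [← Finset.sum_mul, hy2]

theorem gp_gen (hWR : S_WR) (k Ω : Type) [Field k] [Field Ω] [Algebra k Ω] [CharZero k]
    [Algebra.IsAlgebraic k Ω] (D : Finset Ω) (d : ℕ) (hG : GenPos k Ω D d) :
    ∀ (n t : ℕ), t ≤ n → ∀ B : Finset Ω, B ⊆ D → B.card + t ≤ d →
    ∀ e : Fin t → (IntermediateField.adjoin k (B : Set Ω))[X],
    LinearIndependent (IntermediateField.adjoin k (B : Set Ω)) e → (∀ i, (e i).natDegree ≤ d) →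
    ∀ ν : Ω → ℕ, (∀ b ∈ B, ν b = 0) → ∑ a ∈ D, ν a = t → ∀ y : Fin t → Ω,
    (∀ a ∈ D, ∀ j < ν a, ∑ i, y i * aeval a (hasseDeriv j (e i)) = 0) → y = 0 := by
  classical
  intro n
  induction n with
  | zero =>
    intro t ht B hB hBt e he hde ν hν hsum y hy
    obtain rfl : t = 0 := by omega
    exact Subsingleton.elim _ _
  | succ n ih =>
    intro t ht B hB hBt e he hde ν hν hsum y hy
    by_cases ht0 : t = 0
    · subst ht0
      exact Subsingleton.elim _ _
    obtain ⟨a, haD, hνa⟩ : ∃ a ∈ D, ν a ≠ 0 := by
      by_contra hcon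
      push Not at hcon
      exact ht0 (by rw [← hsum]; exact Finset.sum_eq_zero hcon)
    have haB : a ∉ B := fun h => hνa (hν a h)
    have hle : ν a ≤ t := by
      rw [← hsum]
      exact Finset.single_le_sum (fun i _ => Nat.zero_le _) haD
    obtain ⟨m, hm⟩ : ∃ m, ν a = m := ⟨_, rfl⟩
    obtain ⟨t', rfl⟩ : ∃ t', t = m + t' := ⟨t - m, by omega⟩
    have hdeg := hG B hB (by omega) a haD haB
    have hdet := hWR (IntermediateField.adjoin k (B : Set Ω)) Ω d (m + t') e he hde a
      ((Algebra.IsIntegral.isIntegral (R := k) a).tower_top)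
      (lt_of_le_of_lt (by rw [pow_two]; exact Nat.mul_le_mul_right _ (by omega)) hdeg)
    have hsub : IntermediateField.adjoin k (B : Set Ω) ≤
        IntermediateField.adjoin k ((insert a B : Finset Ω) : Set Ω) :=
      IntermediateField.adjoin.mono k _ _ (by
        rw [Finset.coe_insert]; exact Set.subset_insert _ _)
    have ha' : a ∈ IntermediateField.adjoin k ((insert a B : Finset Ω) : Set Ω) :=
      IntermediateField.subset_adjoin k _ (by rw [Finset.coe_insert]; exact Set.mem_insert _ _)
    obtain ⟨e', he', hde', hw⟩ := step (Ω := Ω)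
      (IntermediateField.inclusion hsub : _ →ₐ[k] _).toRingHom (fun r => rfl) d m t' e hde
      (⟨a, ha'⟩ : IntermediateField.adjoin k ((insert a B : Finset Ω) : Set Ω)) hdet
    obtain ⟨w, hw0, hwe⟩ := hw y (fun j hj => hy a haD j (by omega))
    apply hw0
    refine ih t' (by omega) (insert a B) (Finset.insert_subset haD hB)
      (by rw [Finset.card_insert_of_notMem haB]; omega) e' he' hde'
      (Function.update ν a 0) ?_ ?_ w ?_
    · intro b hb
      rcases Finset.mem_insert.mp hb with rfl | hb
      · simp
      · rw [Function.update_of_ne (fun h : b = a => haB (h ▸ hb))]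
        exact hν b hb
    · have h1 := Finset.add_sum_erase D ν haD
      have h2 := Finset.add_sum_erase D (Function.update ν a 0) haD
      have h3 : ∑ x ∈ D.erase a, Function.update ν a 0 x = ∑ x ∈ D.erase a, ν x := by
        apply Finset.sum_congr rfl
        intro x hx
        rw [Function.update_of_ne (Finset.ne_of_mem_erase hx)]
      rw [h3, Function.update_self] at h2
      omega
    · intro b hb j hj
      rw [hwe]
      by_cases hba : b = a
      · subst hba
        rw [Function.update_self] at hj
        omega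
      · rw [Function.update_of_ne hba] at hj
        exact hy b hb j hj

theorem t_GP : S_WR → S_GP := by
  classical
  intro hWR k Ω _ _ _ _ _ D d hG t e ht he hde ν hsum y hy
  have hin : ∀ r : k, algebraMap (IntermediateField.adjoin k ((∅ : Finset Ω) : Set Ω)) Ω
      (algebraMap k (IntermediateField.adjoin k ((∅ : Finset Ω) : Set Ω)) r) =
      algebraMap k Ω r := fun r => rfl
  have hsurj : Function.Surjective
      (algebraMap k (IntermediateField.adjoin k ((∅ : Finset Ω) : Set Ω))) := by
    rintro ⟨x, hx⟩
    have hx' : x ∈ (⊥ : IntermediateField k Ω) := by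
      have : IntermediateField.adjoin k ((∅ : Finset Ω) : Set Ω) = ⊥ := by
        rw [Finset.coe_empty, IntermediateField.adjoin_empty]
      rw [← this]
      exact hx
    obtain ⟨r, hr⟩ := IntermediateField.mem_bot.mp hx'
    exact ⟨r, Subtype.ext hr⟩
  refine gp_gen hWR k Ω D d hG t t le_rfl ∅ (Finset.empty_subset _) (by simpa using ht)
    (fun i => (e i).map (algebraMap k _)) ?_ ?_ ν ?_ hsum y ?_
  · rw [Fintype.linearIndependent_iff] at he ⊢
    intro c hc i
    choose c' hc' using fun i => hsurj (c i)
    have h0 : ∑ i, c' i • e i = 0 := by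
      apply Polynomial.map_injective (algebraMap k
        (IntermediateField.adjoin k ((∅ : Finset Ω) : Set Ω))) (algebraMap k _).injective
      rw [Polynomial.map_zero, Polynomial.map_sum, ← hc]
      apply Finset.sum_congr rfl
      intro i _
      rw [← hc' i, smul_eq_C_mul, smul_eq_C_mul, Polynomial.map_mul, Polynomial.map_C]
    rw [← hc' i, he c' h0 i, map_zero]
  · intro i
    exact natDegree_map_le.trans (hde i)
  · intro b hb
    exact absurd hb (Finset.notMem_empty _)
  · intro a ha j hj
    rw [← hy a ha j hj]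
    apply Finset.sum_congr rfl
    intro i _
    rw [aeval_hasse_map _ hin]

end Pool.Agent.Run7.h617.Hd
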