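import Pool.Agent.Run7.h860.Hd.Stm

/-!
# Piece SO (sorted sums) of the project of helper860 on MP_6f1c57_nt

`t_SO : S_SO`, by induction over a finite set, adding an index with the largest value.
-/

set_option autoImplicit false

open Polynomial Finset
open Pool.Agent.Run7.h860.Hd

namespace Pool.Agent.Run7.h617.Hd

theorem so_finset {ι : Type} [DecidableEq ι] (m : ι → ℝ) (hm : ∀ i, 0 ≤ m i) (s : Finset ι) :
    ∃ G : ℕ → ℝ,
    2 * ∑ j ∈ range s.card, G j = ∑ i ∈ s, ∑ l ∈ s, min (m i) (m l) + ∑ i ∈ s, m i ∧
    (∀ J : Finset ι, J ⊆ s → G J.card ≤ ∑ i ∈ s \ J, m i) ∧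
    (∀ j, G (j + 1) ≤ G j ∧ 0 ≤ G j) ∧
    (∀ j, (s.filter fun i => 0 < m i).card ≤ j → G j = 0) := by
  classical
  induction s using Finset.induction_on_max_value m with
  | empty =>
    refine ⟨fun _ => 0, by simp, by simp, by simp, by simp⟩
  | insert a s ha hmax ih =>
    obtain ⟨G, h1, h2, h3, h4⟩ := ih
    refine ⟨fun j => match j with
      | 0 => ∑ i ∈ insert a s, m i
      | j + 1 => G j, ?_, ?_, ?_, ?_⟩
    · rw [Finset.card_insert_of_notMem ha, Finset.sum_range_succ', mul_add]
      simp only
      rw [h1, Finset.sum_insert ha, Finset.sum_insert ha]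
      have e1 : ∑ l ∈ insert a s, min (m a) (m l) = m a + ∑ l ∈ s, m l := by
        rw [Finset.sum_insert ha, min_self]
        congr 1
        exact Finset.sum_congr rfl fun x hx => min_eq_right (hmax x hx)
      have e2 : ∑ i ∈ s, ∑ l ∈ insert a s, min (m i) (m l) =
          ∑ i ∈ s, m i + ∑ i ∈ s, ∑ l ∈ s, min (m i) (m l) := by
        rw [← Finset.sum_add_distrib]
        apply Finset.sum_congr rfl
        intro i hi
        rw [Finset.sum_insert ha, min_eq_left (hmax i hi)]
      rw [e1, e2]
      ring
    · intro J hJ
      rcases Finset.eq_empty_or_nonempty J with rfl | hne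
      · simp
      · obtain ⟨b, hb, hbm⟩ : ∃ b ∈ J, J.erase b ⊆ s ∧
            ∑ i ∈ s \ J.erase b, m i ≤ ∑ i ∈ insert a s \ J, m i := by
          by_cases haJ : a ∈ J
          · refine ⟨a, haJ, ?_, ?_⟩
            · intro x hx
              exact (Finset.mem_insert.mp (hJ (Finset.mem_of_mem_erase hx))).resolve_left
                (Finset.ne_of_mem_erase hx)
            · apply le_of_eq
              apply Finset.sum_congr _ fun _ _ => rfl
              ext x
              simp only [Finset.mem_sdiff, Finset.mem_erase, Finset.mem_insert]
              constructor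
              · rintro ⟨hx, hx2⟩
                refine ⟨Or.inr hx, fun hxJ => hx2 ⟨?_, hxJ⟩⟩
                rintro rfl
                exact ha hx
              · rintro ⟨hx, hx2⟩
                refine ⟨hx.resolve_left ?_, fun h => hx2 h.2⟩
                rintro rfl
                exact hx2 haJ
          · obtain ⟨b, hb⟩ := hne
            have hJs : J ⊆ s := fun x hx =>
              (Finset.mem_insert.mp (hJ hx)).resolve_left (fun h => haJ (h ▸ hx))
            refine ⟨b, hb, (Finset.erase_subset _ _).trans hJs, ?_⟩
            have e1 : s \ J.erase b = insert b (s \ J) := by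
              ext x
              simp only [Finset.mem_sdiff, Finset.mem_erase, Finset.mem_insert]
              constructor
              · rintro ⟨hx, hx2⟩
                by_cases hxb : x = b
                · exact Or.inl hxb
                · exact Or.inr ⟨hx, fun h => hx2 ⟨hxb, h⟩⟩
              · rintro (rfl | ⟨hx, hx2⟩)
                · exact ⟨hJs hb, fun h => h.1 rfl⟩
                · exact ⟨hx, fun h => hx2 h.2⟩
            have e2 : insert a s \ J = insert a (s \ J) := by
              ext x
              simp only [Finset.mem_sdiff, Finset.mem_insert]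
              constructor
              · rintro ⟨rfl | hx, hx2⟩
                · exact Or.inl rfl
                · exact Or.inr ⟨hx, hx2⟩
              · rintro (rfl | ⟨hx, hx2⟩)
                · exact ⟨Or.inl rfl, haJ⟩
                · exact ⟨Or.inr hx, hx2⟩
            rw [e1, e2, Finset.sum_insert (fun h => (Finset.mem_sdiff.mp h).2 hb),
              Finset.sum_insert (fun h => ha (Finset.mem_sdiff.mp h).1)]
            have := hmax b (hJs hb)
            linarith
        have hc : J.card = (J.erase b).card + 1 := by
          rw [Finset.card_erase_add_one hb]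
        rw [hc]
        exact (h2 _ hbm.1).trans hbm.2
    · intro j
      cases j with
      | zero =>
        have h0 := h2 ∅ (Finset.empty_subset _)
        simp only [Finset.card_empty, Finset.sdiff_empty] at h0
        refine ⟨?_, Finset.sum_nonneg fun i _ => hm i⟩
        show G 0 ≤ ∑ i ∈ insert a s, m i
        rw [Finset.sum_insert ha]
        linarith [hm a]
      | succ j => exact h3 j
    · intro j hj
      cases j with
      | zero =>
        show ∑ i ∈ insert a s, m i = 0
        apply Finset.sum_eq_zero
        intro i hi
        rw [Nat.le_zero, Finset.card_eq_zero, Finset.filter_eq_empty_iff] at hj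
        exact le_antisymm (not_lt.mp (hj hi)) (hm i)
      | succ j =>
        show G j = 0
        apply h4
        by_cases hma : 0 < m a
        · rw [Finset.filter_insert, if_pos hma, Finset.card_insert_of_notMem
            (fun h => ha (Finset.mem_filter.mp h).1)] at hj
          omega
        · have : (s.filter fun i => 0 < m i) = ∅ := by
            rw [Finset.filter_eq_empty_iff]
            intro i hi h
            exact hma (lt_of_lt_of_le h (hmax i hi))
          rw [this]
          simp

theorem t_SO : S_SO := by
  intro d m hm
  obtain ⟨G, h1, h2, h3, h4⟩ := so_finset m hm Finset.univ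
  refine ⟨G, ?_, ?_, h3, h4⟩
  · rw [Finset.card_univ, Fintype.card_fin] at h1
    exact h1
  · intro J
    rw [Finset.compl_eq_univ_sdiff]
    exact h2 J (Finset.subset_univ _)

end Pool.Agent.Run7.h617.Hd
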